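import Pool.Agent.J6H74.PS.Prox

/-!
# Perfect sequence covering arrays exist for all large indices

Let `E = C(n-1, 0) + C(n-1, 1) + ... + C(n-1, k)`. For all `1 ≤ k ≤ n` a `PSCA(n, k, λ)` exists for
every `λ ≥ E * n! / (2 * k!)`; so, for each `n` and `k`, only finitely many `λ` can violate the
implication of the question, and they are below this bound. More generally (proximity): rational
weights of the permutations with integral coverage numbers can be rounded to integral weights with
the same coverage numbers, where each weight changes by at most `E / 2`.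

Proof. (1) Integrality: an integral vector which is a rational combination of the coverage vectors is an
integral combination. Dually: if `F (x) = ∑ a (x restricted to T)`, the sum over all `k`-subsets `T`,
with rational `a`, has integral values at all orders `x` then `a` can be chosen integral. For the proof
by induction one takes a letter `z`: `F` is determined by its values at the orders with `z` first and by
its differences when `z` passes a letter `u`; the latter are functions of the same type, of the
orders of the other letters, with one element less, and all sets `T` contain `u`. (2) Rounding: by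
the same induction every rational relation of the coverage vectors can be rounded to an
integral relation; adding a letter, the errors for `k` and `k - 1` are added.
-/

set_option autoImplicit false

namespace Pool.Agent.Results.MP_5387a8_co.AllLargeIndices

/-- The permutation `σ` of `{0, …, n-1}`, viewed as the sequence `σ 0, …, σ (n-1)`, covers the
sequence `y`: `y` is a (not necessarily contiguous) subsequence. -/
def Covers {n : ℕ} (σ : Equiv.Perm (Fin n)) (y : List (Fin n)) : Prop := y.Sublist (List.ofFn σ)

open Classical in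
/-- `P` is a `PSCA(n, k, lam)`: every sequence `y` of `k` distinct elements is covered by exactly `lam`
members of the multiset `P` of permutations. -/
def IsPSCA (n k lam : ℕ) (P : Multiset (Equiv.Perm (Fin n))) : Prop :=
  ∀ y : List (Fin n), y.Nodup → y.length = k → P.countP (fun σ => Covers σ y) = lam

open Classical in
/-- The coverage number of `y` for the weights `r`: the sum of the weights of the permutations which
cover `y`. -/
noncomputable def cov {n : ℕ} (r : Equiv.Perm (Fin n) → ℚ) (y : List (Fin n)) : ℚ :=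
  ∑ σ : Equiv.Perm (Fin n), if Covers σ y then r σ else 0

/-- `E n k = C(n-1, 0) + C(n-1, 1) + ... + C(n-1, k)`. -/
def E (n k : ℕ) : ℕ := ∑ i ∈ Finset.range (k + 1), (n - 1).choose i

open Classical in
theorem count_eq {n : ℕ} (m : Equiv.Perm (Fin n) → ℕ) (p : Equiv.Perm (Fin n) → Prop) :
    (∑ σ : Equiv.Perm (Fin n), m σ • ({σ} : Multiset (Equiv.Perm (Fin n)))).countP p =
      ∑ σ : Equiv.Perm (Fin n), m σ * if p σ then 1 else 0 := by
  rw [← Multiset.coe_countPAddMonoidHom, map_sum]
  refine Finset.sum_congr rfl fun x _ => ?_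
  rw [map_nsmul, Multiset.coe_countPAddMonoidHom, smul_eq_mul]
  congr 1
  rw [← Multiset.cons_zero, Multiset.countP_cons]
  simp

open Classical Pool.Agent.J6H74.PS in
theorem prox (n k : ℕ) (hn : 1 ≤ n) (hk : 1 ≤ k) (r : Equiv.Perm (Fin n) → ℚ)
    (hr : ∀ y : List (Fin n), y.Nodup → y.length = k → ∃ v : ℤ, cov r y = v) :
    ∃ m : Equiv.Perm (Fin n) → ℤ, (∀ σ, |r σ - m σ| ≤ (E n k : ℚ) / 2) ∧
      ∀ y : List (Fin n), y.Nodup → y.length = k → cov (fun σ => (m σ : ℚ)) y = cov r y := by
  obtain ⟨n, rfl⟩ : ∃ n', n = n' + 1 := ⟨n - 1, by omega⟩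
  let e : Equiv.Perm (Fin (n + 1)) ≃ XX (Fin (n + 1)) := Equiv.ofBijective seq seq_bijective
  have hcov : ∀ (q : Equiv.Perm (Fin (n + 1)) → ℚ) (y : YY (Fin (n + 1)) k),
      cov q y.1 = ∑ x, q (e.symm x) * (col k x y : ℚ) := by
    intro q y
    unfold cov
    rw [← Equiv.sum_comp e]
    refine Finset.sum_congr rfl fun σ _ => ?_
    rw [Equiv.symm_apply_apply]
    unfold col Covers
    have h1 : (e σ).1 = List.ofFn σ := rfl
    rw [h1]
    split_ifs <;> simp
  choose v hv using fun y : YY (Fin (n + 1)) k => hr y.1 y.2.1 y.2.2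
  obtain ⟨m, hm1, hm2⟩ := proximity (Fintype.card_fin (n + 1)) hk (fun x => r (e.symm x)) v
    (fun y => by rw [← hv y, hcov r y])
  refine ⟨fun σ => m (e σ), fun σ => ?_, fun y hy hyk => ?_⟩
  · have h := hm1 (e σ)
    simp only [Equiv.symm_apply_apply] at h
    exact h
  · have h1 := hcov (fun σ => (m (e σ) : ℚ)) ⟨y, hy, hyk⟩
    have h2 := hv ⟨y, hy, hyk⟩
    simp only [Equiv.apply_symm_apply] at h1 h2
    rw [h1, h2, hm2 ⟨y, hy, hyk⟩]
    push_cast
    rfl

open Classical Pool.Agent.J6H74.PS in
/-- The number of the permutations which cover a sequence. -/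
theorem cov_one (n k : ℕ) (y : List (Fin n)) (hy : y.Nodup) (hk : y.length = k) :
    cov (fun _ => 1) y * (k.factorial : ℚ) = n.factorial := by
  let e : Equiv.Perm (Fin n) ≃ XX (Fin n) := Equiv.ofBijective seq seq_bijective
  have h1 := mul_factorial (⟨y, hy, hk⟩ : YY (Fin n) k)
  rw [Fintype.card_fin] at h1
  have h2 : cov (fun _ => 1) y = ((∑ x, col k x (⟨y, hy, hk⟩ : YY (Fin n) k) : ℤ) : ℚ) := by
    unfold cov
    rw [← Equiv.sum_comp e]
    push_cast
    refine Finset.sum_congr rfl fun σ _ => ?_
    unfold col Covers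
    have h1 : (e σ).1 = List.ofFn σ := rfl
    rw [h1]
    split_ifs <;> simp
  rw [h2]
  exact_mod_cast h1

open Classical in
/-- From nonnegative integral weights to multisets. -/
theorem multiset_of (n k : ℕ) (hn : 1 ≤ n) (hk : 1 ≤ k) (r : Equiv.Perm (Fin n) → ℚ)
    (hr : ∀ y : List (Fin n), y.Nodup → y.length = k → ∃ v : ℤ, cov r y = v)
    (hpos : ∀ σ, (E n k : ℚ) / 2 ≤ r σ) :
    ∃ P : Multiset (Equiv.Perm (Fin n)), ∀ y : List (Fin n), y.Nodup → y.length = k →
      ((P.countP (fun σ => Covers σ y) : ℕ) : ℚ) = cov r y := by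
  obtain ⟨m, hm1, hm2⟩ := prox n k hn hk r hr
  have hm0 : ∀ σ, 0 ≤ m σ := by
    intro σ
    have h1 := (abs_le.1 (hm1 σ)).2
    have h2 := hpos σ
    have h3 : (0 : ℚ) ≤ m σ := by linarith
    exact_mod_cast h3
  refine ⟨∑ σ : Equiv.Perm (Fin n), (m σ).toNat • {σ}, fun y hy hyk => ?_⟩
  rw [count_eq, ← hm2 y hy hyk]
  unfold cov
  push_cast
  refine Finset.sum_congr rfl fun σ _ => ?_
  have h1 : (((m σ).toNat : ℕ) : ℚ) = (m σ : ℚ) := by
    have h2 : (((m σ).toNat : ℕ) : ℤ) = m σ := Int.toNat_of_nonneg (hm0 σ)
    exact_mod_cast congrArg (fun t : ℤ => (t : ℚ)) h2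
  rw [h1]
  split_ifs <;> simp

open Classical in
/-- Let `1 ≤ k ≤ n` and `E = E n k`. (1) A `PSCA(n, k, lam)` exists for every
`lam ≥ E * n! / (2 * k!)`. (2) If rational weights `r` of the permutations have integral coverage
numbers for all sequences of `k` distinct elements, then there are integral weights `m` with the
same coverage numbers, and `|r σ - m σ| ≤ E / 2` for every permutation `σ`. (3) If moreover all
weights `r σ` are at least `E / 2` then some multiset of permutations has the coverage numbers of
`r`. -/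
theorem result (n k : ℕ) (hk : 1 ≤ k) (hkn : k ≤ n) :
    (∀ lam : ℕ, E n k * n.factorial ≤ 2 * (k.factorial * lam) →
      ∃ P : Multiset (Equiv.Perm (Fin n)), IsPSCA n k lam P) ∧
    ∀ r : Equiv.Perm (Fin n) → ℚ,
      (∀ y : List (Fin n), y.Nodup → y.length = k → ∃ v : ℤ, cov r y = v) →
      (∃ m : Equiv.Perm (Fin n) → ℤ, (∀ σ, |r σ - m σ| ≤ (E n k : ℚ) / 2) ∧
        ∀ y : List (Fin n), y.Nodup → y.length = k → cov (fun σ => (m σ : ℚ)) y = cov r y) ∧
      ((∀ σ, (E n k : ℚ) / 2 ≤ r σ) → ∃ P : Multiset (Equiv.Perm (Fin n)),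
        ∀ y : List (Fin n), y.Nodup → y.length = k →
          ((P.countP (fun σ => Covers σ y) : ℕ) : ℚ) = cov r y) := by
  have hn : 1 ≤ n := hk.trans hkn
  refine ⟨fun lam hlam => ?_, fun r hr => ⟨prox n k hn hk r hr, multiset_of n k hn hk r hr⟩⟩
  have hk0 : (k.factorial : ℚ) ≠ 0 := by exact_mod_cast k.factorial_ne_zero
  have hn0 : (0 : ℚ) < n.factorial := by exact_mod_cast n.factorial_pos
  have hcov : ∀ y : List (Fin n), y.Nodup → y.length = k →
      cov (fun _ => (lam : ℚ) * k.factorial / n.factorial) y = lam := by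
    intro y hy hyk
    have h1 := cov_one n k y hy hyk
    have h2 : cov (fun _ : Equiv.Perm (Fin n) => (lam : ℚ) * k.factorial / n.factorial) y =
        ((lam : ℚ) * k.factorial / n.factorial) * cov (fun _ => 1) y := by
      unfold cov
      rw [Finset.mul_sum]
      refine Finset.sum_congr rfl fun σ _ => ?_
      split_ifs <;> simp
    rw [h2, div_mul_eq_mul_div, div_eq_iff hn0.ne', mul_assoc, mul_comm (k.factorial : ℚ), h1]
  obtain ⟨P, hP⟩ := multiset_of n k hn hk (fun _ => (lam : ℚ) * k.factorial / n.factorial)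
    (fun y hy hyk => ⟨lam, by rw [hcov y hy hyk]; simp⟩) (fun _ => by
      rw [div_le_div_iff₀ (by norm_num) hn0]
      have h : ((E n k * n.factorial : ℕ) : ℚ) ≤ ((2 * (k.factorial * lam) : ℕ) : ℚ) := by
        exact_mod_cast hlam
      push_cast at h
      linarith)
  refine ⟨P, fun y hy hyk => ?_⟩
  have h := hP y hy hyk
  rw [hcov y hy hyk] at h
  exact_mod_cast h

end Pool.Agent.Results.MP_5387a8_co.AllLargeIndices
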